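import Mathlib
import Pool.Agent.H45.Lib.S8.H373R2.T7.BilE
import Pool.Agent.H45.Lib.S8.H373R2.T7.BilLam

set_option autoImplicit false

/-! The von Mangoldt function minus its model along a family of nearly minimal additive energy. -/

namespace Pool.Agent.H560R3.GB

open Finset Pool.Agent.H373R2.T7
open Pool.Agent.H807R2.Dav

set_option maxHeartbeats 1000000 in
/-- the first moment over a family of shifts of nearly minimal energy -/
theorem lam_e (p B C U : ℕ) :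
    ∃ B0 : ℕ, ∀ E : ℕ, ∃ N0 : ℕ, ∀ N : ℕ, N0 ≤ N → ∀ (x : ℕ) (s : ℕ → ℤ),
    (∀ m ∈ Icc 1 x, |s m| ≤ B * N) →
    (energy p x s : ℝ) * N ≤ Real.log N ^ C * (x : ℝ) ^ (2 * p) →
    ∀ A : ℕ, A ≤ B * N → ∀ z : ℕ, Real.log N ^ B0 ≤ z → (z : ℝ) ≤ Real.log N ^ E →
    ∀ G : ℕ → ℂ, (∀ a, ‖G a‖ ≤ 1) →
    ∑ m ∈ Icc 1 x, ‖∑ a ∈ Icc 1 A, G a * ((lamI (a + s m) - lamzI z (a + s m) : ℝ) : ℂ)‖ ≤
      N * x / Real.log N ^ U := by
  set K : ℕ := (4 * p + 5) * (2 * (B + 1) ^ 2) + 4 * (B + 1) with hK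
  set U' : ℕ := C + 2 * p * (U + 2) + U + 1 with hU'
  obtain ⟨B1', hsup⟩ := sup_diff U'
  refine ⟨B1' + 1, fun E => ?_⟩
  obtain ⟨m1, h1⟩ := hsup E
  obtain ⟨m2, h2⟩ := Vz_inv_small E
  obtain ⟨m3, h3⟩ := ev_L' (max (K + 1) (max (2 ^ B1') (Real.log (2 * (B + 1)) + 1)))
  refine ⟨max (max m1 m2) (max m3 3), fun N hN x s hs hE A hA z hz1 hz2 G hG => ?_⟩
  have hm1 : m1 ≤ N := le_trans (le_trans (le_max_left _ _) (le_max_left _ _)) hN
  have hm2 : m2 ≤ N := le_trans (le_trans (le_max_right _ _) (le_max_left _ _)) hN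
  have hL := h3 N (le_trans (le_trans (le_max_left _ _) (le_max_right _ _)) hN)
  have hN3 : 3 ≤ N := le_trans (le_trans (le_max_right _ _) (le_max_right _ _)) hN
  have hNr : (3 : ℝ) ≤ N := by exact_mod_cast hN3
  have hN0 : (0 : ℝ) < N := by linarith
  set L := Real.log N with hLd
  have hL1 : (K : ℝ) + 1 ≤ L := (le_max_left _ _).trans hL
  have hL3 : (2 : ℝ) ^ B1' ≤ L := ((le_max_left _ _).trans (le_max_right _ _)).trans hL
  have hL4 : Real.log (2 * (B + 1)) + 1 ≤ L := ((le_max_right _ _).trans (le_max_right _ _)).trans hL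
  have hK0 : (0 : ℝ) ≤ K := Nat.cast_nonneg _
  have hLge1 : 1 ≤ L := by linarith
  have hL0 : 0 < L := by linarith
  have hz : 1 ≤ z := by
    have : (1 : ℝ) ≤ z := (one_le_pow₀ hLge1).trans hz1
    exact_mod_cast this
  rcases Nat.eq_zero_or_pos x with hx | hx
  · rw [hx]; simp
  have hx0 : (0 : ℝ) < x := by exact_mod_cast hx
  set B1 : ℕ := B + 1 with hB1
  have hB1pos : 1 ≤ B1 := by omega
  set H : ℕ := 2 * (B1 * N) with hH
  set M : ℕ := (4 * p + 5) * (B1 * N) with hM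
  have hBN : B * N ≤ B1 * N := Nat.mul_le_mul_right _ (by omega)
  have hB1N : 1 ≤ B1 * N := Nat.mul_pos hB1pos (by omega)
  have hHN : N ≤ H := by
    have : N ≤ B1 * N := Nat.le_mul_of_pos_left _ hB1pos
    omega
  have hH1 : 1 ≤ H := by omega
  have hM5 : 5 * (B1 * N) ≤ M := by
    rw [hM]; exact Nat.mul_le_mul_right _ (by omega)
  have hM1 : 1 ≤ M := by omega
  have hHM : H ≤ M := by omega
  have hHr : (H : ℝ) = 2 * (B1 * N) := by rw [hH]; push_cast; ring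
  have hMr : (M : ℝ) = (4 * p + 5) * (B1 * N) := by rw [hM]; push_cast; ring
  have hlogH1 : L ≤ Real.log H := Real.log_le_log hN0 (by exact_mod_cast hHN)
  have hB1r' : (1 : ℝ) ≤ B1 := by exact_mod_cast hB1pos
  have hlogH2 : Real.log H ≤ 2 * L := by
    have e : (H : ℝ) = (2 * (B + 1)) * N := by rw [hHr, hB1]; push_cast; ring
    rw [e, Real.log_mul (by positivity) hN0.ne']
    linarith
  have hcond : ∀ a ∈ Icc 1 A, ∀ m ∈ Icc 1 x, ∀ n ∈ Icc 1 H, |(a : ℤ) + s m - n| < M := by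
    intro a ha m hm n hn
    have h4 := abs_le.1 (hs m hm)
    rw [mem_Icc] at ha hn
    have h5 : (a : ℤ) ≤ B * N := by exact_mod_cast ha.2.trans hA
    have h6 : (n : ℤ) ≤ 2 * (B1 * N) := by exact_mod_cast hn.2
    have h7 : (5 : ℤ) * (B1 * N) ≤ M := by exact_mod_cast hM5
    have h8 : (B : ℤ) * N ≤ B1 * N := by exact_mod_cast hBN
    have h9 : (1 : ℤ) ≤ B1 * N := by exact_mod_cast hB1N
    have h10 : (0 : ℤ) ≤ a := by positivity
    have h11 : (0 : ℤ) ≤ n := by positivity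
    rw [abs_lt]
    constructor <;> linarith [h4.1, h4.2]
  have hAM : A ≤ M := hA.trans (by omega)
  have hmomE := moment_energy p x s M (B * N) hM1 (fun m hm => by
    have := hs m hm
    push_cast
    exact this) (by
    have h4 : 2 * p * (B * N) ≤ 2 * p * (B1 * N) := Nat.mul_le_mul_left _ hBN
    have h5 : 2 * p * (B1 * N) < (4 * p + 5) * (B1 * N) := Nat.mul_lt_mul_of_pos_right (by omega) hB1N
    omega)
  set C0 : ℝ := (4 * p + 5) * B1 * L ^ C with hC0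
  have hmom : ∑ t ∈ range M, (‖∑ m ∈ Icc 1 x, ee ((t : ℝ) * ((s m : ℝ) / M))‖ / x) ^ (2 * p) ≤ C0 := by
    have h2 : ∑ t ∈ range M, (‖∑ m ∈ Icc 1 x, ee ((t : ℝ) * ((s m : ℝ) / M))‖ / x) ^ (2 * p) =
        (M * energy p x s) / (x : ℝ) ^ (2 * p) := by
      rw [← hmomE, sum_div]
      exact sum_congr rfl fun t _ => div_pow _ _ _
    rw [h2, div_le_iff₀ (by positivity), hMr]
    calc (4 * (p : ℝ) + 5) * (B1 * N) * energy p x s = (4 * p + 5) * B1 * (energy p x s * N) := by ring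
      _ ≤ (4 * p + 5) * B1 * (L ^ C * (x : ℝ) ^ (2 * p)) := mul_le_mul_of_nonneg_left hE (by positivity)
      _ = _ := by rw [hC0]; ring
  -- the function
  set fΛ : ℕ → ℂ := fun n => ((ArithmeticFunction.vonMangoldt n - lamz z n : ℝ) : ℂ) with hfΛ
  have hzH1 : Real.log H ^ B1' ≤ z := by
    calc Real.log H ^ B1' ≤ (2 * L) ^ B1' := pow_le_pow_left₀ (hL0.le.trans hlogH1) hlogH2 _
      _ = 2 ^ B1' * L ^ B1' := mul_pow _ _ _
      _ ≤ L * L ^ B1' := mul_le_mul_of_nonneg_right hL3 (by positivity)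
      _ = L ^ (B1' + 1) := by ring
      _ ≤ z := hz1
  have hzH2 : (z : ℝ) ≤ Real.log H ^ E := hz2.trans (pow_le_pow_left₀ hL0.le hlogH1 _)
  have hsup1 : ∀ α : ℝ, ‖∑ n ∈ Icc 1 H, fΛ n * ee ((n : ℝ) * α)‖ ≤ H / L ^ U' := by
    intro α
    refine (h1 H (hm1.trans hHN) z hzH1 hzH2 α).trans ?_
    apply div_le_div_of_nonneg_left (by positivity) (by positivity)
    exact pow_le_pow_left₀ hL0.le hlogH1 _
  have hVinv := h2 N hm2 z hz hz2
  have hlz : ∀ n, lamz z n ≤ L := by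
    intro n
    unfold lamz
    split_ifs
    · exact hVinv
    · exact hL0.le
  have hfs : ∑ n ∈ Icc 1 H, ‖fΛ n‖ ^ 2 ≤ H * (2 * L) ^ 2 := by
    have h4 : ∀ n ∈ Icc 1 H, ‖fΛ n‖ ^ 2 ≤ (2 * L) ^ 2 := by
      intro n hn
      rw [mem_Icc] at hn
      apply pow_le_pow_left₀ (norm_nonneg _)
      rw [hfΛ, Complex.norm_real, Real.norm_eq_abs]
      have h5 : ArithmeticFunction.vonMangoldt n ≤ 2 * L := by
        refine ArithmeticFunction.vonMangoldt_le_log.trans (le_trans ?_ hlogH2)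
        exact Real.log_le_log (by exact_mod_cast hn.1) (by exact_mod_cast hn.2)
      have h6 : (0 : ℝ) ≤ ArithmeticFunction.vonMangoldt n := ArithmeticFunction.vonMangoldt_nonneg
      have h7 := lamz_nonneg z n
      have h8 := hlz n
      rw [abs_le]
      constructor <;> linarith
    refine (sum_le_sum h4).trans ?_
    rw [sum_const, Nat.card_Icc, nsmul_eq_mul]
    simp
  have hη : 0 < 1 / L ^ (U + 2) := by positivity
  set S : ℕ → ℂ := fun m => ∑ a ∈ Icc 1 A, G a * ((lamI (a + s m) - lamzI z (a + s m) : ℝ) : ℂ) with hS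
  set c : ℕ → ℂ := fun m => (starRingEnd ℂ) (S m) / ‖S m‖ with hc
  have hc1 : ∀ m, ‖c m‖ ≤ 1 := by
    intro m
    rw [hc]
    simp only [norm_div, RCLike.norm_conj, Complex.norm_real, norm_norm]
    exact div_self_le_one _
  have key := bil_main A H x M hM1 fΛ G c s (H / L ^ U') (1 / L ^ (U + 2)) p C0
    (H * (2 * L) ^ 2) hcond hAM hHM hx hsup1 hG hc1 hmom hfs hη
  have heq : ∑ a ∈ Icc 1 A, ∑ m ∈ Icc 1 x, G a * c m * fz fΛ H (a + s m) =
      ((∑ m ∈ Icc 1 x, ‖S m‖ : ℝ) : ℂ) := by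
    have e0 : ∑ a ∈ Icc 1 A, ∑ m ∈ Icc 1 x, G a * c m * fz fΛ H (a + s m) =
        ∑ a ∈ Icc 1 A, ∑ m ∈ Icc 1 x, G a * c m * ((lamI (a + s m) - lamzI z (a + s m) : ℝ) : ℂ) := by
      apply sum_congr rfl
      intro a ha
      apply sum_congr rfl
      intro m hm
      congr 1
      unfold fz lamI lamzI
      have h4 := abs_le.1 (hs m hm)
      rw [mem_Icc] at ha
      have h5 : (a : ℤ) ≤ B * N := by exact_mod_cast ha.2.trans hA
      have h8 : (B : ℤ) * N ≤ B1 * N := by exact_mod_cast hBN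
      have h9 : (H : ℤ) = 2 * (B1 * N) := by rw [hH]; push_cast; ring
      by_cases h6 : 1 ≤ (a : ℤ) + s m
      · rw [if_pos h6, if_pos h6, if_pos ⟨h6, by linarith [h4.2]⟩]
      · rw [if_neg h6, if_neg h6, if_neg (fun h => h6 h.1)]
        simp
    rw [e0, sum_comm]
    push_cast
    apply sum_congr rfl
    intro m _
    have e1 : ∑ a ∈ Icc 1 A, G a * c m * (((lamI (a + s m) : ℝ) : ℂ) - ((lamzI z (a + s m) : ℝ) : ℂ)) = c m * S m := by
      rw [hS, mul_sum]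
      apply sum_congr rfl
      intro a _
      push_cast
      ring
    rw [e1, hc]
    simp only
    by_cases h0 : ‖S m‖ = 0
    · rw [norm_eq_zero.1 h0]; simp
    · have h0' : ((‖S m‖ : ℝ) : ℂ) ≠ 0 := by exact_mod_cast h0
      rw [div_mul_eq_mul_div, mul_comm, Complex.mul_conj', pow_two]
      field_simp
  rw [heq, Complex.norm_real, Real.norm_of_nonneg (sum_nonneg fun _ _ => norm_nonneg _)] at key
  refine key.trans ?_
  have hAr : (A : ℝ) ≤ B1 * N := by exact_mod_cast hA.trans hBN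
  have hB1r : (1 : ℝ) ≤ B1 := by exact_mod_cast hB1pos
  have hA0 : (0 : ℝ) ≤ A := Nat.cast_nonneg _
  have t1 : C0 / (1 / L ^ (U + 2)) ^ (2 * p) * (H / L ^ U') * A * x / M ≤
      ((4 * p + 5) * (2 * B1 ^ 2) / L) * (N * x / L ^ U) := by
    have h4 : C0 / (1 / L ^ (U + 2)) ^ (2 * p) * (H / L ^ U') = (4 * p + 5) * B1 * H / L ^ (U + 1) := by
      rw [div_pow, one_pow, ← pow_mul, hU', hC0]
      have e : L ^ (C + 2 * p * (U + 2) + U + 1) = L ^ C * L ^ ((U + 2) * (2 * p)) * L ^ (U + 1) := by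
        rw [← pow_add, ← pow_add]; congr 1; ring
      rw [e]
      field_simp
    rw [h4]
    have hAM' : (A : ℝ) ≤ M := by exact_mod_cast hAM
    have hM0 : (0 : ℝ) < M := by exact_mod_cast hM1
    have h5 : (4 * (p : ℝ) + 5) * B1 * H / L ^ (U + 1) * A * x / M ≤ (4 * p + 5) * B1 * H / L ^ (U + 1) * x := by
      rw [div_le_iff₀ hM0]
      have h6 : 0 ≤ (4 * (p : ℝ) + 5) * B1 * H / L ^ (U + 1) * x := by positivity
      calc (4 * (p : ℝ) + 5) * B1 * H / L ^ (U + 1) * A * x = ((4 * (p : ℝ) + 5) * B1 * H / L ^ (U + 1) * x) * A := by ring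
        _ ≤ _ := mul_le_mul_of_nonneg_left hAM' h6
    refine h5.trans (le_of_eq ?_)
    rw [hHr, pow_succ]
    field_simp
  have t2 : 1 / L ^ (U + 2) * x * Real.sqrt (H * (2 * L) ^ 2 * A) ≤ (4 * B1 / L) * (N * x / L ^ U) := by
    have h4 : Real.sqrt (H * (2 * L) ^ 2 * A) ≤ 2 * (B1 * N) * (2 * L) := by
      rw [Real.sqrt_le_left (by positivity), hHr]
      have h5 : 2 * ((B1 : ℝ) * N) * (2 * L) ^ 2 * A ≤ 2 * (B1 * N) * (2 * L) ^ 2 * (B1 * N) := mul_le_mul_of_nonneg_left hAr (by positivity)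
      have h6 : 0 ≤ (B1 : ℝ) * N := by positivity
      refine h5.trans ?_
      have h7 : 0 ≤ ((B1 : ℝ) * N) * (B1 * N) * (2 * L) ^ 2 := by positivity
      nlinarith
    calc 1 / L ^ (U + 2) * x * Real.sqrt (H * (2 * L) ^ 2 * A) ≤ 1 / L ^ (U + 2) * x * (2 * (B1 * N) * (2 * L)) :=
          mul_le_mul_of_nonneg_left h4 (by positivity)
      _ = _ := by rw [show U + 2 = U + 1 + 1 from rfl, pow_succ, pow_succ]; field_simp; ring
  have hKr : (K : ℝ) = (4 * p + 5) * (2 * B1 ^ 2) + 4 * B1 := by rw [hK, hB1]; push_cast; ring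
  calc C0 / (1 / L ^ (U + 2)) ^ (2 * p) * (H / L ^ U') * A * x / M + 1 / L ^ (U + 2) * x * Real.sqrt (H * (2 * L) ^ 2 * A) ≤
        ((4 * p + 5) * (2 * B1 ^ 2) / L) * (N * x / L ^ U) + (4 * B1 / L) * (N * x / L ^ U) := add_le_add t1 t2
    _ = (K / L) * (N * x / L ^ U) := by rw [hKr]; ring
    _ ≤ 1 * (N * x / L ^ U) := by
        apply mul_le_mul_of_nonneg_right _ (by positivity)
        rw [div_le_one hL0]
        linarith
    _ = _ := one_mul _

end Pool.Agent.H560R3.GB
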